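import Mathlib
import Pool.Agent.MP_1fa752_co.H51.Main

namespace Pool.Agent.Results.MP_1fa752_co.SqrtLower

/-- The closed unit square with centre `c` whose sides are parallel to `(cos θ, sin θ)` and
`(-sin θ, cos θ)`. -/
def unitSquare (c : ℝ × ℝ) (θ : ℝ) : Set (ℝ × ℝ) :=
  {p | |(p.1 - c.1) * Real.cos θ + (p.2 - c.2) * Real.sin θ| ≤ 1 / 2 ∧
    |-((p.1 - c.1) * Real.sin θ) + (p.2 - c.2) * Real.cos θ| ≤ 1 / 2}

/-- The least number of closed unit squares covering the closed square of side `s`. -/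
noncomputable def N (s : ℝ) : ℕ :=
  sInf {m : ℕ | ∃ (c : Fin m → ℝ × ℝ) (θ : Fin m → ℝ),
    Set.Icc 0 s ×ˢ Set.Icc 0 s ⊆ ⋃ i, unitSquare (c i) (θ i)}

/-- The minimum of `N (n + ε)` over `ε > 0`. -/
noncomputable def P (n : ℕ) : ℕ := sInf {m : ℕ | ∃ ε : ℝ, 0 < ε ∧ N (n + ε) = m}

theorem result : ∃ c : ℝ, 0 < c ∧ ∃ n₀ : ℕ, ∀ n : ℕ, n₀ ≤ n →
    c * Real.sqrt n ≤ (P n : ℝ) - (n : ℝ) ^ 2 := by
  refine ⟨1 / 10 ^ 15, by norm_num, 2, fun n hn => ?_⟩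
  obtain ⟨ε, hε, e⟩ : P n ∈ {m : ℕ | ∃ ε : ℝ, 0 < ε ∧ N (n + ε) = m} :=
    Nat.sInf_mem ⟨_, 1, one_pos, rfl⟩
  obtain ⟨c, θ, h⟩ : N (n + ε) ∈ {m : ℕ | ∃ (c : Fin m → ℝ × ℝ) (θ : Fin m → ℝ),
      Set.Icc 0 (n + ε) ×ˢ Set.Icc 0 (n + ε) ⊆ ⋃ i, unitSquare (c i) (θ i)} := by
    refine Nat.sInf_mem ⟨(⌊n + ε⌋₊ + 1) * (⌊n + ε⌋₊ + 1),
      fun i => ((finProdFinEquiv.symm i).1 + 1 / 2, (finProdFinEquiv.symm i).2 + 1 / 2),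
      fun _ => 0, fun p hp => Set.mem_iUnion.2 ⟨finProdFinEquiv
        (⟨⌊p.1⌋₊, Nat.lt_succ_of_le (Nat.floor_mono hp.1.2)⟩,
          ⟨⌊p.2⌋₊, Nat.lt_succ_of_le (Nat.floor_mono hp.2.2)⟩), ?_⟩⟩
    have a1 := Nat.floor_le hp.1.1
    have a2 := Nat.floor_le hp.2.1
    have b1 := Nat.lt_floor_add_one p.1
    have b2 := Nat.lt_floor_add_one p.2
    simp only [unitSquare, Equiv.symm_apply_apply, Set.mem_ofPred_eq, Real.cos_zero, Real.sin_zero,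
      abs_le]
    refine ⟨⟨?_, ?_⟩, ?_, ?_⟩ <;> linarith
  rw [← e]
  exact Pool.Agent.MP_1fa752_co.H51.lower
    (fun i => ⟨(c i).1, (c i).2, Real.cos (θ i), Real.sin (θ i), Real.cos_sq_add_sin_sq _⟩) hn
    (L := n + ε) (by linarith) fun p hp => Set.mem_iUnion.1 (h hp)

end Pool.Agent.Results.MP_1fa752_co.SqrtLower
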